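import Pool.Agent.ISB.StmtsC

set_option autoImplicit false

namespace Pool.Agent.ISB.H34

open scoped Classical commutatorElement

open Pool.Agent.ISB

/-- the elements of `P` which fix `x`, in two ways -/
def stEquiv {G Ω : Type} [Group G] [MulAction G Ω] (P : Subgroup G) (x : Ω) :
    (P.subgroupOf (MulAction.stabilizer G x)) ≃ MulAction.stabilizer P x where
  toFun y := ⟨⟨y.1.1, y.2⟩, y.1.2⟩
  invFun y := ⟨⟨y.1.1, y.2⟩, y.1.2⟩
  left_inv _ := rfl
  right_inv _ := rfl

theorem syl : SylStmt := by
  intro G Ω _ _ _ _ r a P hr hN htr hcard x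
  have hP : IsPGroup 2 (P : Subgroup G) := P.isPGroup'
  obtain ⟨n, hn⟩ := hP.card_orbit x
  have h1 : Nat.card (MulAction.orbit (P : Subgroup G) x) *
      Nat.card (MulAction.stabilizer (P : Subgroup G) x) = Nat.card (P : Subgroup G) := by
    rw [← Nat.card_prod]
    exact Nat.card_congr (MulAction.orbitProdStabilizerEquivGroup (P : Subgroup G) x)
  have h2 : 2 ^ a * r * Nat.card (MulAction.stabilizer G x) = Nat.card G := by
    rw [← hcard]
    have : MulAction.orbit G x = Set.univ := by
      ext y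
      obtain ⟨g, hg⟩ := htr x y
      exact ⟨fun _ => trivial, fun _ => ⟨g, hg⟩⟩
    have h3 : Nat.card Ω = Nat.card (MulAction.orbit G x) := by
      rw [this]
      exact (Nat.card_congr (Equiv.Set.univ Ω)).symm
    rw [h3, ← Nat.card_prod]
    exact Nat.card_congr (MulAction.orbitProdStabilizerEquivGroup G x)
  have h3 : Nat.card (P : Subgroup G) * (P : Subgroup G).index = Nat.card G :=
    Subgroup.card_mul_index _
  have hodd : ¬ 2 ∣ (P : Subgroup G).index := P.not_dvd_index
  have h4 : Nat.card ((P : Subgroup G).subgroupOf (MulAction.stabilizer G x)) *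
      ((P : Subgroup G).subgroupOf (MulAction.stabilizer G x)).index =
      Nat.card (MulAction.stabilizer G x) := Subgroup.card_mul_index _
  have h5 : ((P : Subgroup G).subgroupOf (MulAction.stabilizer G x)).index ∣
      (P : Subgroup G).index := Subgroup.relIndex_dvd_index_of_normal _ _
  have h6 : Nat.card ((P : Subgroup G).subgroupOf (MulAction.stabilizer G x)) =
      Nat.card (MulAction.stabilizer (P : Subgroup G) x) :=
    Nat.card_congr (stEquiv (P : Subgroup G) x)
  set q := ((P : Subgroup G).subgroupOf (MulAction.stabilizer G x)).index with hq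
  set i := (P : Subgroup G).index with hi
  set c := Nat.card (MulAction.stabilizer (P : Subgroup G) x) with hc
  have hcpos : 0 < c := Nat.card_pos
  have hqodd : ¬ 2 ∣ q := fun h => hodd (h.trans h5)
  rw [h6] at h4
  rw [← h4, ← h3, ← h1, hn] at h2
  have h7 : 2 ^ a * (r * q) = 2 ^ n * i := by
    have : c * (2 ^ a * (r * q)) = c * (2 ^ n * i) := by
      calc c * (2 ^ a * (r * q)) = 2 ^ a * r * (c * q) := by ring
        _ = 2 ^ n * c * i := h2
        _ = c * (2 ^ n * i) := by ring
    exact Nat.eq_of_mul_eq_mul_left hcpos this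
  have hrodd : ¬ 2 ∣ r := by
    intro h
    exact (Nat.not_even_iff_odd.mpr hr) (even_iff_two_dvd.mpr h)
  have hcop1 : ∀ m : ℕ, ¬ 2 ∣ m → ∀ k : ℕ, Nat.Coprime (2 ^ k) m := by
    intro m hm k
    exact Nat.Coprime.pow_left k ((Nat.Prime.coprime_iff_not_dvd Nat.prime_two).mpr hm)
  have hrq : ¬ 2 ∣ r * q := by
    intro h
    rcases (Nat.Prime.dvd_mul Nat.prime_two).mp h with h | h
    · exact hrodd h
    · exact hqodd h
  rw [hn]
  apply Nat.dvd_antisymm
  · exact (hcop1 _ hrq n).dvd_of_dvd_mul_right (h7 ▸ Dvd.intro _ rfl)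
  · exact (hcop1 _ hodd a).dvd_of_dvd_mul_right (h7 ▸ Dvd.intro _ rfl)

end Pool.Agent.ISB.H34
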